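import Pool.Agent.L7h3.GL.Stm

/-! Project GL, part MA. -/

namespace Pool.Agent.L7h64.GL
open Cardinal Pool.Agent.L7h3.GL

theorem not_le_of_cov {L : Type} [CompleteLattice L] {b x z : L} (hx : b ⋖ x) (hz : b ⋖ z)
    (h : x ≠ z) : ¬ x ≤ z := by
  intro hle
  rcases hz.eq_or_eq hx.le hle with h1 | h1
  · exact hx.ne' h1
  · exact h h1

theorem cov_sup {L : Type} [CompleteLattice L] {ρ : L → ℕ} (hρ : Rk ρ) {b x z : L} (hx : b ⋖ x)
    (hz : b ⋖ z) (h : x ≠ z) : z ⋖ z ⊔ x :=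
  hρ.sm b x z hx hz.le (not_le_of_cov hx hz h)

theorem cov_w {L : Type} [CompleteLattice L] {ρ : L → ℕ} (hρ : Rk ρ) {b x x' z : L} (hx : b ⋖ x)
    (hx' : b ⋖ x') (hne : x ≠ x') (hz : b ⋖ z) (hle : z ≤ x ⊔ x') : z ⋖ x ⊔ x' := by
  -- the case `z ≠ x`
  have key : ∀ x x' : L, b ⋖ x → b ⋖ x' → x ≠ x' → z ≤ x ⊔ x' → x ≠ z → z ⋖ x ⊔ x' := by
    intro x x' hx hx' hne hle hxz
    have h1 := cov_sup hρ hx hz hxz
    have h2 : x ⋖ x ⊔ z := cov_sup hρ hz hx (Ne.symm hxz)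
    have h3 : x ⋖ x ⊔ x' := cov_sup hρ hx' hx (Ne.symm hne)
    have h4 : x ⊔ z = x ⊔ x' := by
      rcases h3.eq_or_eq h2.le (sup_le le_sup_left hle) with h | h
      · exact absurd h h2.ne'
      · exact h
    rw [← h4, sup_comm]
    exact h1
  by_cases hxz : x = z
  · subst hxz
    rw [sup_comm]
    exact key x' x hx' hx (Ne.symm hne) (by rw [sup_comm]; exact hle) (Ne.symm hne)
  · exact key x x' hx hx' hne hle hxz

theorem gen_self {L : Type} [CompleteLattice L] {b : L} {T : Set L} {z : L} (hb : b ⋖ z)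
    (hz : z ∈ T) : Gen b T z := by
  apply le_antisymm
  · exact (le_sSup (show z ∈ {a | a ∈ T ∧ a ≤ z} from ⟨hz, le_rfl⟩)).trans le_sup_right
  · exact sup_le hb.le (sSup_le fun a ha => ha.2)

theorem con_le {L : Type} [CompleteLattice L] (x : L) (T : Set L) : #(Con x T) ≤ #T := by
  have h : Con x T ⊆ (fun a => x ⊔ a) '' T := by
    rintro w ⟨a, ha, -, rfl⟩
    exact ⟨a, ha, rfl⟩
  exact (mk_le_mk_of_subset h).trans mk_image_le

theorem s_MA (hLINA : S_LINA) (hLINB : S_LINB) (hFR : S_FR) (hEX : S_EX) (hGOOD : S_GOOD) :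
    S_MA := by
  intro L _ ρ hρ b T hCv hT hbad
  have hinf : ℵ₀ ≤ #T := by
    haveI := hT.to_subtype
    exact aleph0_le_mk T
  set B : Set L := {x | x ∈ T ∧ #(Con x T) < #T} with hB
  have hBT : B ⊆ T := fun x hx => hx.1
  have hBcard : #B < #T := hbad
  have hgood : ∀ x ∈ T, x ∉ B → #(Con x T) = #T := by
    intro x hx hxB
    refine le_antisymm (con_le x T) ?_
    by_contra h
    exact hxB ⟨hx, not_le.1 h⟩
  refine hGOOD L ρ hρ b T B hCv hT hBT hBcard ?_ hgood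
  by_cases hw : ∃ x ∈ T, ∃ x' ∈ T, x ≠ x' ∧ #(Bel T (x ⊔ x')) = #T
  · obtain ⟨x, hx, x', hx', hne, hcard⟩ := hw
    have hbw : b ≤ x ⊔ x' := (hCv x hx).le.trans le_sup_left
    have hgw : Gen b T (x ⊔ x') := by
      apply le_antisymm
      · refine sup_le ?_ ?_
        · exact (le_sSup (show x ∈ {a | a ∈ T ∧ a ≤ x ⊔ x'} from ⟨hx, le_sup_left⟩)).trans
            le_sup_right
        · exact (le_sSup (show x' ∈ {a | a ∈ T ∧ a ≤ x ⊔ x'} from ⟨hx', le_sup_right⟩)).trans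
            le_sup_right
      · exact sup_le hbw (sSup_le fun a ha => ha.2)
    obtain ⟨p, hp, hpd⟩ := hFR L ρ hρ b T B (x ⊔ x') hCv hbw hgw (by
      intro z hz
      have hzw : z ≤ x ⊔ x' := by
        by_contra h
        have h1 := hLINA L ρ hρ b T z (x ⊔ x') hCv hz.1 h
        rw [hcard] at h1
        exact absurd hz.2 (not_lt.2 h1)
      exact ⟨cov_w hρ (hCv x hx) (hCv x' hx') hne (hCv z hz.1) hzw, (hCv z hz.1).le,
        gen_self (hCv z hz.1) hz.1⟩)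
    exact ⟨p, fun a ha => ⟨(hp a ha).1, fun y hy => ((hp a ha).2 y hy).1⟩, hpd⟩
  · have hsub : B.Subsingleton := by
      intro x hx x' hx'
      by_contra hne
      apply hw
      refine ⟨x, hx.1, x', hx'.1, hne, le_antisymm (mk_le_mk_of_subset fun a ha => ha.1) ?_⟩
      by_contra h
      have h1 : #(Bel T (x ⊔ x')) < #T := not_le.1 h
      have h2 := hLINB L ρ hρ b T x x' hCv hx.1 hx'.1 hne
      have h3 : #(Con x T) * #(Con x' T) < #T := mul_lt_of_lt hinf hx.2 hx'.2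
      have h4 : T ⊆ Bel T (x ⊔ x') ∪ {a | a ∈ T ∧ ¬ a ≤ x ⊔ x'} := by
        intro a ha
        by_cases h5 : a ≤ x ⊔ x'
        · exact Or.inl ⟨ha, h5⟩
        · exact Or.inr ⟨ha, h5⟩
      have h5 : #T ≤ #(Bel T (x ⊔ x')) + #{a | a ∈ T ∧ ¬ a ≤ x ⊔ x'} :=
        (mk_le_mk_of_subset h4).trans (mk_union_le _ _)
      have h6 : #{a | a ∈ T ∧ ¬ a ≤ x ⊔ x'} < #T := lt_of_le_of_lt h2 h3
      exact absurd (add_lt_of_lt hinf h1 h6) (not_lt.2 h5)
    rcases hsub.eq_empty_or_singleton with h0 | ⟨x, h1⟩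
    · rw [h0]
      exact ⟨fun _ => [], fun a ha => ha.elim, fun a ha => ha.elim⟩
    · have hxB : x ∈ B := by rw [h1]; exact Set.mem_singleton x
      obtain ⟨x', hx', hne⟩ := (Set.Infinite.nontrivial hT).exists_ne x
      have hle : ∀ a ∈ T, a ≤ tp b T := fun a ha => (le_sSup ha).trans le_sup_right
      have hlt : x < tp b T :=
        lt_of_lt_of_le (cov_sup hρ (hCv x' hx') (hCv x hxB.1) hne).lt
          (sup_le (hle x hxB.1) (hle x' hx'))
      obtain ⟨l, hl, hlg⟩ := hEX L ρ hρ b T x hCv (hCv x hxB.1).le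
        (gen_self (hCv x hxB.1) hxB.1) hlt
      rw [h1]
      refine ⟨fun _ => l, ?_, ?_⟩
      · rintro a ha
        rw [Set.mem_singleton_iff] at ha
        subst ha
        exact ⟨hl, hlg⟩
      · intro a ha a' ha' hna
        rw [Set.mem_singleton_iff] at ha ha'
        exact absurd (ha.trans ha'.symm) hna

end Pool.Agent.L7h64.GL
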